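import Pool.Agent.H4.TA.Targets2

/-!
# Row E2L: the mean number of different points in the plane
-/

set_option autoImplicit false

open Finset Pool.Agent.H43.TC Pool.Agent.H4.TA Filter Topology

namespace Pool.Agent.H69.TAS

theorem pf_E2L (hGLG : T_GLG) (hQGT : T_QGT) (hEQT : T_EQT) (hRNW : T_RNW) (hSL1 : T_SL1)
    (hAVQ : T_AVQ) : T_E2L := by
  have hR := hRNW 2 le_rfl
  obtain ⟨hq0, hslow⟩ := hSL1 _ _ _ hR
  have h1 := hQGT _ _ _ hR
  have h2 := hEQT (qq 2) hR.qa hq0 hslow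
  have h3 : Tendsto (fun t : ℕ => (∑ j ∈ range (t + 1), pp 2 j) / Real.log t) atTop
    (𝓝 (1 / Real.pi)) := hGLG
  have hpi : (1 / Real.pi : ℝ) ≠ 0 := by positivity
  have h4 := ((h2.mul h1).mul_const (1 / Real.pi)).div h3 hpi
  have h5 : (1 : ℝ) * 1 * (1 / Real.pi) / (1 / Real.pi) = 1 := by
    rw [one_mul, one_mul, div_self hpi]
  rw [h5] at h4
  refine h4.congr' ?_
  filter_upwards [eventually_ge_atTop 2] with t ht
  have hrng : rng 2 t = ∑ s ∈ range (t + 1), qq 2 s := by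
    unfold rng
    refine sum_congr rfl fun s _ => ?_
    rw [hAVQ 2 s (by norm_num)]
  have hg : 0 < ∑ j ∈ range (t + 1), pp 2 j := by
    have h6 : pp 2 0 ≤ ∑ j ∈ range (t + 1), pp 2 j :=
      single_le_sum (f := fun j => pp 2 j) (fun j _ => hR.pn j) (mem_range.2 (by omega))
    rw [hR.p0] at h6
    linarith
  have hlog : Real.log t ≠ 0 := by
    have : (1 : ℝ) < t := by exact_mod_cast (by omega : 1 < t)
    exact (Real.log_pos this).ne'
  have ht0 : (t : ℝ) ≠ 0 := by
    have : (0 : ℝ) < t := by exact_mod_cast (by omega : 0 < t)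
    exact this.ne'
  have hqt := (hq0 t).ne'
  rw [hrng]
  dsimp only [Pi.div_apply]
  generalize (∑ s ∈ range (t + 1), qq 2 s) = S at *
  generalize (∑ j ∈ range (t + 1), pp 2 j) = g at *
  field_simp

end Pool.Agent.H69.TAS
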